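import Pool.Agent.Helper63.ST.Defs

set_option autoImplicit false

namespace Pool.Agent.ST

theorem RankLE.addSubgroup {B : Type} [AddCommGroup B] {r : ℕ} (hr : RankLE B r)
    (C : AddSubgroup B) : RankLE C r := by
  classical
  intro s
  obtain ⟨t, ht, hts⟩ := hr (s.image C.subtype)
  have hcl : AddSubgroup.closure (t : Set B) ≤ C := by
    rw [hts]
    rw [AddSubgroup.closure_le]
    intro x hx
    simp only [Finset.coe_image, Set.mem_image] at hx
    obtain ⟨y, _, rfl⟩ := hx
    exact y.2
  have htC : ∀ x ∈ t, x ∈ C := fun x hx => hcl (AddSubgroup.subset_closure hx)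
  refine ⟨t.subtype (· ∈ C), ?_, ?_⟩
  · refine le_trans ?_ ht
    rw [Finset.card_subtype]
    exact Finset.card_filter_le _ _
  · have h1 : AddSubgroup.map C.subtype (AddSubgroup.closure ((t.subtype (· ∈ C) : Finset C) : Set C))
        = AddSubgroup.map C.subtype (AddSubgroup.closure (s : Set C)) := by
      rw [AddMonoidHom.map_closure, AddMonoidHom.map_closure]
      have : C.subtype '' ((t.subtype (· ∈ C) : Finset C) : Set C) = (t : Set B) := by
        ext x
        simp only [Set.mem_image, Finset.mem_coe, Finset.mem_subtype]
        constructor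
        · rintro ⟨y, hy, rfl⟩
          exact hy
        · intro hx
          exact ⟨⟨x, htC x hx⟩, hx, rfl⟩
      rw [this, hts]
      congr 1
      simp
    exact AddSubgroup.map_injective C.subtype_injective h1

theorem RankLE.quotient {B : Type} [AddCommGroup B] {r : ℕ} (hr : RankLE B r)
    (C : AddSubgroup B) : RankLE (B ⧸ C) r := by
  classical
  intro s
  obtain ⟨t, ht, hts⟩ := hr (s.image Quotient.out)
  refine ⟨t.image (QuotientAddGroup.mk' C), Finset.card_image_le.trans ht, ?_⟩
  rw [Finset.coe_image, ← AddMonoidHom.map_closure, hts, AddMonoidHom.map_closure]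
  congr 1
  ext x
  simp only [Finset.coe_image, Set.mem_image, Finset.mem_coe]
  constructor
  · rintro ⟨_, ⟨z, hz, rfl⟩, rfl⟩
    have : (QuotientAddGroup.mk' C) (Quotient.out z) = z := QuotientAddGroup.out_eq' z
    rw [this]
    exact hz
  · intro hx
    exact ⟨_, ⟨x, hx, rfl⟩, QuotientAddGroup.out_eq' x⟩

theorem RankG.quotient {G : Type} [Group G] {r : ℕ} (hr : RankG G r) (N : Subgroup G)
    [N.Normal] : RankG (G ⧸ N) r := by
  classical
  rintro H ⟨s, hs⟩
  obtain ⟨t, ht, hts⟩ := hr (Subgroup.closure ((s.image Quotient.out : Finset G) : Set G))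
    ⟨_, rfl⟩
  refine ⟨t.image (QuotientGroup.mk' N), Finset.card_image_le.trans ht, ?_⟩
  rw [Finset.coe_image, ← MonoidHom.map_closure, hts, MonoidHom.map_closure, ← hs]
  congr 1
  ext x
  simp only [Finset.coe_image, Set.mem_image, Finset.mem_coe]
  constructor
  · rintro ⟨_, ⟨z, hz, rfl⟩, rfl⟩
    have : (QuotientGroup.mk' N) (Quotient.out z) = z := QuotientGroup.out_eq' z
    rw [this]
    exact hz
  · intro hx
    exact ⟨_, ⟨x, hx, rfl⟩, QuotientGroup.out_eq' x⟩

theorem RankG.rankLE {G : Type} [Group G] {r : ℕ} (hr : RankG G r) (N : Subgroup G) :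
    RankLE (Additive (Abelianization N)) r := by
  classical
  intro s
  -- lift of elements to G
  let lift : Additive (Abelianization N) → N := fun b => Quotient.out (Additive.toMul b)
  have hl : ∀ b, Additive.ofMul (Abelianization.of (lift b)) = b := by
    intro b
    show Additive.ofMul _ = b
    have : Abelianization.of (lift b) = Additive.toMul b := QuotientGroup.out_eq' _
    rw [this]
    rfl
  obtain ⟨t, ht, hts⟩ := hr (Subgroup.closure ((s.image (fun b => (lift b : G)) : Finset G) : Set G))
    ⟨_, rfl⟩
  have htN : ∀ x ∈ t, x ∈ N := by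
    have : Subgroup.closure (t : Set G) ≤ N := by
      rw [hts, Subgroup.closure_le]
      intro x hx
      simp only [Finset.coe_image, Set.mem_image] at hx
      obtain ⟨y, _, rfl⟩ := hx
      exact (lift y).2
    exact fun x hx => this (Subgroup.subset_closure hx)
  let t' : Finset N := t.subtype (· ∈ N)
  let s' : Finset N := s.image lift
  have hcl : Subgroup.closure (t' : Set N) = Subgroup.closure (s' : Set N) := by
    have h1 : Subgroup.map N.subtype (Subgroup.closure (t' : Set N))
        = Subgroup.map N.subtype (Subgroup.closure (s' : Set N)) := by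
      rw [MonoidHom.map_closure, MonoidHom.map_closure]
      have e1 : N.subtype '' (t' : Set N) = (t : Set G) := by
        ext x
        simp only [t', Set.mem_image, Finset.mem_coe, Finset.mem_subtype]
        constructor
        · rintro ⟨y, hy, rfl⟩
          exact hy
        · intro hx
          exact ⟨⟨x, htN x hx⟩, hx, rfl⟩
      have e2 : N.subtype '' (s' : Set N)
          = ((s.image (fun b => (lift b : G)) : Finset G) : Set G) := by
        ext x
        simp [s']
      rw [e1, e2, hts]
    exact Subgroup.map_injective N.subtype_injective h1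
  let q : N →* Abelianization N := Abelianization.of
  let f : Additive N →+ Additive (Abelianization N) := MonoidHom.toAdditive q
  have key : ∀ u : Finset N, AddSubgroup.closure
      ((u.image (fun x => Additive.ofMul (Abelianization.of x)) :
        Finset (Additive (Abelianization N))) : Set (Additive (Abelianization N)))
      = Subgroup.toAddSubgroup (Subgroup.map q (Subgroup.closure (u : Set N))) := by
    intro u
    rw [MonoidHom.map_closure, Subgroup.toAddSubgroup_closure]
    congr 1
    ext x
    simp only [Finset.coe_image, Set.mem_image, Finset.mem_coe, Set.mem_preimage]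
    constructor
    · rintro ⟨y, hy, rfl⟩
      exact ⟨y, hy, rfl⟩
    · rintro ⟨y, hy, hyx⟩
      exact ⟨y, hy, by rw [show Abelianization.of y = Additive.toMul x from hyx]; rfl⟩
  refine ⟨t'.image (fun x => Additive.ofMul (Abelianization.of x)), ?_, ?_⟩
  · refine Finset.card_image_le.trans (le_trans ?_ ht)
    rw [Finset.card_subtype]
    exact Finset.card_filter_le _ _
  · rw [key, hcl, ← key]
    congr 1
    ext x
    simp only [Finset.coe_image, Set.mem_image, Finset.mem_coe, s']
    constructor
    · rintro ⟨_, ⟨z, hz, rfl⟩, rfl⟩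
      rw [hl]
      exact hz
    · intro hx
      exact ⟨_, ⟨x, hx, rfl⟩, hl x⟩

end Pool.Agent.ST
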